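import Pool.Agent.V7H59.DN.Lift

set_option autoImplicit false

namespace Pool.Agent.V7H59.DN

def gt (l : List ℤ) (j : ℕ) : ℤ := l.getD j 0

def dA12 : ℕ → ℤ := gt [-1, 1, 3, -1, 3, 1, -1, 3, -1, 1, 3, 1]

def dE12 : ℕ → ℤ := gt [0, 1, 1, 0, 1, 0, 1, 0, 1, 1, 0, 0]

def dG12 : ℕ → ℤ := gt [5, 15, 22, 6, 20, 12, 9, 20, 13, 19, 22, 11]

theorem ck12 : ckAll 6 dA12 dE12 dG12 = true := by decide +kernel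

def dA14 : ℕ → ℤ := gt [-1, 1, 3, -1, 1, 3, 1, -1, 1, 3, -1, 1, 3, 1]

def dE14 : ℕ → ℤ := gt [0, 1, 1, 1, 0, 0, 1, 0, 0, 1, 1, 1, 0, 0]

def dG14 : ℕ → ℤ := gt [3, 15, 23, 8, 19, 25, 21, 12, 21, 25, 13, 20, 23, 10]

theorem ck14 : ckAll 7 dA14 dE14 dG14 = true := by decide +kernel

def dA16 : ℕ → ℤ := gt [-1, 3, -1, 3, 1, -1, 3, 1, -1, 3, 1, -1, 3, -1, 3, 1]

def dE16 : ℕ → ℤ := gt [0, 1, 0, 1, 1, 1, 0, 0, 0, 1, 1, 1, 0, 1, 0, 0]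

def dG16 : ℕ → ℤ := gt [12, 35, 25, 46, 42, 37, 55, 48, 40, 55, 45, 34, 46, 25, 35, 20]

theorem ck16 : ckAll 8 dA16 dE16 dG16 = true := by decide +kernel

def dA20 : ℕ → ℤ := gt [-1, 3, 1, -1, 3, 1, -1, 1, 3, 1, -1, 1, 3, 1, -1, 3, 1, -1, 3, 1]

def dE20 : ℕ → ℤ := gt [0, 1, 0, 1, 1, 1, 0, 1, 0, 0, 0, 1, 0, 1, 1, 1, 0, 1, 0, 0]

def dG20 : ℕ → ℤ := gt [17, 54, 48, 43, 46, 48, 31, 53, 69, 60, 50, 55, 54, 52, 31, 69, 55, 42,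
    46, 27]

theorem ck20 : ckAll 10 dA20 dE20 dG20 = true := by decide +kernel

def dA22 : ℕ → ℤ := gt [-1, 1, 3, -1, 1, -1, 1, -1, 1, 3, 1, -1, 1, 3, 1, 3, 1, 3, -1, 1, 3, 1]

def dE22 : ℕ → ℤ := gt [0, 1, 1, 0, 0, 1, 1, 1, 0, 0, 1, 0, 0, 1, 1, 1, 0, 0, 1, 1, 0, 0]

def dG22 : ℕ → ℤ := gt [17, 26, 58, 29, 34, 15, 30, 24, 30, 42, 55, 21, 32, 49, 34, 42, 40, 58,
    44, 35, 49, 28]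

theorem ck22 : ckAll 11 dA22 dE22 dG22 = true := by decide +kernel

def dA24 : ℕ → ℤ := gt [-1, 1, 3, -1, 3, 1, -1, 3, -1, 1, 3, 1, -1, 1, 3, -1, 3, 1, -1, 3, -1,
    1, 3, 1]

def dE24 : ℕ → ℤ := gt [0, 1, 1, 0, 1, 0, 1, 0, 1, 1, 0, 0, 0, 1, 1, 0, 1, 0, 1, 0, 1, 1, 0, 0]

def dG24 : ℕ → ℤ := gt [18, 28, 11, 1, 33, 13, -2, 27, 26, 8, 11, 0, -12, 10, 53, 7, 27, 19, 16,
    33, -4, 38, 53, 30]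

theorem ck24 : ckAll 12 dA24 dE24 dG24 = true := by decide +kernel

def dA26 : ℕ → ℤ := gt [-1, 3, 1, 3, -1, 1, 3, 1, 3, 1, 3, -1, 1, 3, -1, 1, -1, 1, -1, 1, 3, -1,
    1, -1, 3, 1]

def dE26 : ℕ → ℤ := gt [0, 0, 0, 1, 1, 1, 1, 0, 0, 1, 0, 1, 1, 1, 0, 1, 0, 0, 1, 1, 1, 1, 0, 0,
    0, 0]

def dG26 : ℕ → ℤ := gt [12, 9, 19, 40, -6, 36, 50, -13, 28, -8, 40, -18, -13, 9, 16, -5, 6, -8,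
    30, 43, 28, 23, 29, -6, 50, 25]

theorem ck26 : ckAll 13 dA26 dE26 dG26 = true := by decide +kernel

def dA28 : ℕ → ℤ := gt [-1, 1, -1, 1, 3, 1, -1, 1, -1, 1, 3, -1, 3, 1, -1, 3, -1, 1, 3, 1, 3, 1,
    -1, 1, 3, 1, 3, 1]

def dE28 : ℕ → ℤ := gt [0, 1, 1, 1, 1, 0, 0, 1, 1, 0, 1, 0, 0, 0, 0, 0, 1, 0, 1, 1, 0, 0, 1, 1,
    1, 1, 0, 0]

def dG28 : ℕ → ℤ := gt [9, 19, 11, 34, 49, 26, 14, 26, 5, 27, 43, 13, 38, 28, 11, 43, 18, 31,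
    38, 32, 49, 34, 30, 44, 50, 31, 50, 23]

theorem ck28 : ckAll 14 dA28 dE28 dG28 = true := by decide +kernel

def dA30 : ℕ → ℤ := gt [-1, 1, -1, 3, -1, 3, -1, 3, -1, 3, 1, -1, 3, -1, 1, 3, -1, 3, 1, -1, 3,
    -1, 3, -1, 3, -1, 3, 1, 3, 1]

def dE30 : ℕ → ℤ := gt [0, 0, 0, 1, 0, 1, 1, 0, 1, 1, 1, 0, 1, 0, 1, 0, 1, 0, 1, 1, 1, 0, 1, 1,
    0, 1, 0, 0, 0, 0]

def dG30 : ℕ → ℤ := gt [7, 11, -4, 51, 9, 49, 0, 63, 27, 65, 42, 32, 59, 28, 15, 59, 31, 65, 46,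
    40, 63, 40, 38, 28, 49, 32, 38, 24, 51, 22]

theorem ck30 : ckAll 15 dA30 dE30 dG30 = true := by decide +kernel

def dA32 : ℕ → ℤ := gt [-1, 3, -1, 1, 3, 1, 3, -1, 1, -1, 1, -1, 1, 3, -1, 1, 3, -1, 1, 3, 1, 3,
    1, 3, -1, 1, -1, 1, 3, -1, 3, 1]

def dE32 : ℕ → ℤ := gt [0, 0, 0, 1, 1, 1, 1, 0, 0, 1, 0, 1, 1, 1, 0, 0, 0, 1, 1, 1, 0, 1, 0, 0,
    1, 1, 1, 1, 0, 0, 0, 0]

def dG32 : ℕ → ℤ := gt [14, 56, -12, 25, 33, 18, 61, -17, 18, 21, -1, -13, 0, 56, 26, 0, 59, 26,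
    3, 23, 4, 59, 25, 23, 38, 28, 12, 37, 33, 38, 61, 30]

theorem ck32 : ckAll 16 dA32 dE32 dG32 = true := by decide +kernel

def dA34 : ℕ → ℤ := gt [-1, 1, 3, 1, 3, 1, -1, 3, 1, -1, 3, 1, 3, -1, 1, -1, 1, 3, 1, 3, -1, 1,
    -1, 3, 1, -1, 3, 1, -1, 1, -1, 1, 3, 1]

def dE34 : ℕ → ℤ := gt [0, 1, 0, 1, 0, 0, 0, 1, 0, 0, 1, 0, 1, 1, 1, 1, 1, 1, 1, 1, 1, 0, 1, 0,
    0, 1, 0, 0, 0, 1, 0, 1, 0, 0]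

def dG34 : ℕ → ℤ := gt [2, 24, 23, -21, -1, -17, -2, 23, 12, -20, 21, -8, 52, -38, 10, 7, -17,
    42, 12, -1, 22, -3, -7, 21, 20, -2, 42, -6, -23, -8, 3, 39, 52, 19]

theorem ck34 : ckAll 17 dA34 dE34 dG34 = true := by decide +kernel

def dA38 : ℕ → ℤ := gt [-1, 3, -1, 1, -1, 1, 3, 1, 3, -1, 3, 1, -1, 1, -1, 3, 1, 3, 1, -1, 1,
    -1, 3, 1, 3, 1, -1, 3, -1, 1, -1, 1, 3, 1, 3, -1, 3, 1]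

def dE38 : ℕ → ℤ := gt [0, 0, 1, 0, 0, 0, 1, 1, 0, 0, 1, 0, 0, 1, 1, 1, 1, 1, 1, 1, 1, 1, 1, 1,
    0, 0, 1, 0, 0, 1, 1, 0, 0, 0, 1, 0, 0, 0]

def dG38 : ℕ → ℤ := gt [25, 118, 27, 90, 71, 79, 123, 94, 88, 27, 83, 87, 39, 87, 76, 74, 70,
    88, 95, 51, 72, 39, 118, 92, 83, 94, 53, 74, 60, 105, 97, 92, 123, 105, 81, 97, 81, 44]

theorem ck38 : ckAll 19 dA38 dE38 dG38 = true := by decide +kernel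

def dA40 : ℕ → ℤ := gt [-1, 1, -1, 3, 1, -1, 3, -1, 1, 3, -1, 3, -1, 1, -1, 3, -1, 1, 3, 1, -1,
    1, 3, -1, 3, 1, 3, -1, 3, -1, 1, 3, -1, 3, 1, -1, 3, 1, 3, 1]

def dE40 : ℕ → ℤ := gt [0, 1, 1, 1, 1, 0, 0, 1, 0, 0, 0, 1, 1, 1, 1, 1, 0, 0, 0, 0, 0, 0, 0, 1,
    1, 1, 1, 1, 0, 0, 0, 1, 0, 0, 1, 1, 1, 1, 0, 0]

def dG40 : ℕ → ℤ := gt [30, 75, 47, 89, 67, 52, 83, 56, 82, 108, 65, 83, 52, 71, 61, 114, 61,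
    75, 99, 80, 60, 77, 104, 78, 106, 77, 99, 51, 114, 78, 93, 108, 56, 106, 82, 65, 104, 93,
    89, 50]

theorem ck40 : ckAll 20 dA40 dE40 dG40 = true := by decide +kernel

end Pool.Agent.V7H59.DN
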