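import Pool.Agent.V7H59.DN.Spec

set_option autoImplicit false
set_option maxHeartbeats 1000000

namespace Pool.Agent.V7H59.DN

open Pool.Agent.Results.MP_845d9b_co.SevenModEight (DNeofieldOrder)
open Pool.Agent.Results.MP_162c7e_co.SevenModEight (small_dvd)

def St (a : ℤ) : Prop := a = -3 ∨ a = -1 ∨ a = 1 ∨ a = 3

theorem L1 (n t u a : ℤ) (hn : 0 < n) (h6 : n % 6 = 1 ∨ n % 6 = 5) (ha : St a)
    (t0 : 0 ≤ t) (t1 : t < n) (u0 : 0 ≤ u) (u1 : u < n) (h : 2 * n ∣ a * t - a * u) : t = u := by
  rcases ha with rfl | rfl | rfl | rfl <;>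
  · rcases small_dvd (2 * n) _ (by omega) h (by omega) (by omega) with
      h3 | h3 | h3 | h3 | h3 | h3 | h3 <;> omega

theorem L2 (n t u a e : ℤ) (hn : 0 < n) (h6 : n % 6 = 1 ∨ n % 6 = 5) (ha : St a)
    (he : e = 1 ∨ e = -1)
    (t0 : 0 ≤ t) (t1 : t < n) (u0 : 0 ≤ u) (u1 : u < n) (h : 2 * n ∣ a * t - a * u + e * n) :
    False := by
  rcases ha with rfl | rfl | rfl | rfl <;> rcases he with rfl | rfl <;>
  · rcases small_dvd (2 * n) _ (by omega) h (by omega) (by omega) with
      h3 | h3 | h3 | h3 | h3 | h3 | h3 <;> omega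

theorem L3 (n s : ℤ) (h1 : 0 < s) (h2 : s < 2 * n) (h : 2 * n ∣ s) : False := by
  have := Int.le_of_dvd h1 h
  omega

theorem L3' (n s : ℤ) (h1 : s < 0) (h2 : -(2 * n) < s) (h : 2 * n ∣ s) : False := by
  have := Int.le_of_dvd (show 0 < -s by omega) ((dvd_neg).2 h)
  omega

/-- same residue modulo `h`, then divide by `h` -/
theorem key1 (h n x d e : ℤ) (hh : 0 < h) (hd : 2 * h * n ∣ h * x + d + e * (h * n)) :
    ∃ g, d = h * g ∧ 2 * n ∣ x + g + e * n := by
  obtain ⟨k, hk⟩ := hd
  refine ⟨2 * n * k - x - e * n, by linear_combination hk, ⟨k, by ring⟩⟩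

/-- the admissible pairs of classes: steps `a`, `b`, offset difference `g`, half turns `e`, `f` -/
def okP (a b g e f : ℤ) : Bool :=
  (decide (a = b) && decide (g = 0) && decide (e ≠ f)) ||
  (decide (a = 1) && decide (b = -1) && decide (g = 1) && decide (e = f)) ||
  (decide (a = -1) && decide (b = 1) && decide (g = -1) && decide (e = f))

theorem okP_spec (n t u a b g e f : ℤ) (hn : 0 < n) (h6 : n % 6 = 1 ∨ n % 6 = 5) (ha : St a)
    (he : e = 0 ∨ e = 1) (hf : f = 0 ∨ f = 1) (hok : okP a b g e f = true)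
    (t0 : 0 ≤ t) (t1 : t < n) (u0 : 0 ≤ u) (u1 : u < n)
    (h : 2 * n ∣ a * t - b * u + g + (e - f) * n) : False := by
  unfold okP at hok
  simp only [Bool.or_eq_true, Bool.and_eq_true, decide_eq_true_eq] at hok
  rcases hok with (⟨⟨h1, h2⟩, h3⟩ | ⟨⟨⟨h1, h2⟩, h3⟩, h4⟩) | ⟨⟨⟨h1, h2⟩, h3⟩, h4⟩
  · subst h1 h2
    refine L2 n t u a (e - f) hn h6 ha (by omega) t0 t1 u0 u1 ?_
    have : a * t - a * u + 0 + (e - f) * n = a * t - a * u + (e - f) * n := by ring
    rwa [this] at h
  · subst h1 h2 h3 h4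
    refine L3 n (t + u + 1) (by omega) (by omega) ?_
    have : (1 : ℤ) * t - -1 * u + 1 + (e - e) * n = t + u + 1 := by ring
    rwa [this] at h
  · subst h1 h2 h3 h4
    refine L3' n (-t - u - 1) (by omega) (by omega) ?_
    have : (-1 : ℤ) * t - 1 * u + -1 + (e - e) * n = -t - u - 1 := by ring
    rwa [this] at h

section
variable (h : ℕ) (A E G : ℕ → ℤ)

/-- the sequence -/
def cs (n : ℕ) (i : ℕ) : ℤ :=
  h * (A (i % (2 * h)) * ((i / (2 * h) : ℕ) : ℤ)) + G (i % (2 * h)) + E (i % (2 * h)) * (h * n)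

def ckA : Bool := (List.range (2 * h)).all fun j =>
  (decide (A j = -1) || decide (A j = 1) || decide (A j = 3)) &&
  (decide (E j = 0) || decide (E j = 1))

def ckC : Bool := (List.range (2 * h)).all fun j => (List.range (2 * h)).all fun k =>
  Nat.beq j k || (!(decide ((G j - G k) % h = 0)) || okP (A j) (A k) ((G j - G k) / h) (E j) (E k))

def ckB : Bool := (List.range (2 * h)).all fun j => (List.range (2 * h)).all fun k =>
  Nat.beq j k || ((!(decide ((G j - j - (G k - k)) % h = 0))) ||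
    (okP (A j - 2) (A k - 2) ((G j - j - (G k - k)) / h) (E j) (E k) ||
    ((Nat.beq j (2 * h - 1) && Nat.beq k (2 * h - 2)) ||
      (Nat.beq k (2 * h - 1) && Nat.beq j (2 * h - 2)))))

/-- the exceptional pair, and the value missed by `c i - i` -/
def ckL : Bool := decide (A (2 * h - 1) = 1) && decide (A (2 * h - 2) = 3) &&
  decide (E (2 * h - 1) = E (2 * h - 2)) && decide (G (2 * h - 1) = G (2 * h - 2) + 1 - 2 * h) &&
  (List.range (2 * h - 2)).all fun j => !(decide ((G j - j - (G (2 * h - 2) - (2 * h - 2 : ℕ))) % h = 0))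

def Sl (j : ℕ) : ℤ := if j + 1 < 2 * h then A (j + 1) - A j else A 0 - A j
def Dl (j : ℕ) : ℤ := if j + 1 < 2 * h then G (j + 1) - G j else h * A 0 + G 0 - G j
def Fl (j : ℕ) : ℤ := if j + 1 < 2 * h then E (j + 1) - E j else E 0 - E j

def ckD : Bool := (List.range (2 * h)).all fun j =>
  (!(decide (Sl h A j = 0))) && (List.range (2 * h)).all fun k => Nat.beq j k ||
    !(decide ((Dl h A G j + Fl h E j * h - (Dl h A G k + Fl h E k * h)) % (2 * h) = 0))

def ckAll : Bool := ckA h A E && (ckC h A E G && (ckB h A E G && (ckL h A E G && ckD h A E G)))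

variable {h A E G} (n : ℕ)

theorem A_spec (ck : ckA h A E = true) (j : ℕ) (hj : j < 2 * h) :
    (A j = -1 ∨ A j = 1 ∨ A j = 3) ∧ (E j = 0 ∨ E j = 1) := by
  unfold ckA at ck
  simp only [List.all_eq_true, List.mem_range, Bool.and_eq_true, Bool.or_eq_true,
    decide_eq_true_eq] at ck
  have := ck j hj
  tauto

theorem C_inj (hh : 0 < h) (h6 : n % 6 = 1 ∨ n % 6 = 5) (ck : ckA h A E = true)
    (ckc : ckC h A E G = true) (i k : ℕ) (hi : i < 2 * h * n) (hk : k < 2 * h * n)
    (hd : ((2 * h * n : ℕ) : ℤ) ∣ cs h A E G n i - cs h A E G n k) : i = k := by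
  have hj : i % (2 * h) < 2 * h := Nat.mod_lt _ (by omega)
  have hj' : k % (2 * h) < 2 * h := Nat.mod_lt _ (by omega)
  have ht : i / (2 * h) < n := Nat.div_lt_of_lt_mul hi
  have ht' : k / (2 * h) < n := Nat.div_lt_of_lt_mul hk
  have ei := Nat.div_add_mod i (2 * h)
  have ek := Nat.div_add_mod k (2 * h)
  obtain ⟨sA, sE⟩ := A_spec ck _ hj
  obtain ⟨sA', sE'⟩ := A_spec ck _ hj'
  unfold ckC at ckc
  simp only [List.all_eq_true, List.mem_range] at ckc
  have hc := ckc _ hj _ hj'
  unfold cs at hd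
  generalize i % (2 * h) = j at *
  generalize k % (2 * h) = j' at *
  generalize i / (2 * h) = t at *
  generalize k / (2 * h) = t' at *
  have hd' : (2 * (h : ℤ) * n) ∣ (h : ℤ) * (A j * t - A j' * t') + (G j - G j')
      + (E j - E j') * (h * n) := by
    have e : (h : ℤ) * (A j * t - A j' * t') + (G j - G j') + (E j - E j') * (h * n) =
      (h * (A j * t) + G j + E j * (h * n)) - (h * (A j' * t') + G j' + E j' * (h * n)) := by ring
    rw [e]
    have := hd
    push_cast at this
    exact this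
  obtain ⟨g, hg, h2⟩ := key1 _ _ _ _ _ (by exact_mod_cast hh) hd'
  have n0 : (0 : ℤ) < n := by omega
  have h6' : (n : ℤ) % 6 = 1 ∨ (n : ℤ) % 6 = 5 := by omega
  by_cases hjj : j = j'
  · subst hjj
    have hg0 : g = 0 := by
      have : (h : ℤ) * g = 0 := by rw [← hg]; ring
      rcases mul_eq_zero.1 this with h3 | h3
      · exfalso; omega
      · exact h3
    subst hg0
    have : (t : ℤ) = t' := L1 n t t' (A j) n0 h6' (by unfold St; tauto) (by omega) (by omega)
      (by omega) (by omega) (by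
        have e : A j * (t : ℤ) - A j * t' = A j * t - A j * t' + 0 + (E j - E j) * n := by ring
        rw [e]; exact h2)
    have : t = t' := by exact_mod_cast this
    subst this
    omega
  · exfalso
    have hb : Nat.beq j j' = false := by
      rw [Bool.eq_false_iff]; intro hx; exact hjj (Nat.eq_of_beq_eq_true hx)
    have hm : (G j - G j') % (h : ℤ) = 0 := by rw [hg]; exact Int.mul_emod_right _ _
    have hq : (G j - G j') / (h : ℤ) = g := by
      rw [hg]; exact Int.mul_ediv_cancel_left _ (by omega)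
    rw [hb, Bool.false_or, hq] at hc
    simp only [hm, decide_true, Bool.not_true, Bool.false_or] at hc
    exact okP_spec n t t' _ _ g _ _ n0 h6' (by unfold St; tauto) sE sE' hc (by omega) (by omega)
      (by omega) (by omega) h2

theorem B_inj (hh : 0 < h) (h6 : n % 6 = 1 ∨ n % 6 = 5) (ck : ckA h A E = true)
    (ckb : ckB h A E G = true) (ckl : ckL h A E G = true) (i k : ℕ)
    (hi : i + 1 < 2 * h * n) (hk : k + 1 < 2 * h * n)
    (hd : ((2 * h * n : ℕ) : ℤ) ∣ (cs h A E G n i - i) - (cs h A E G n k - k)) : i = k := by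
  have hj : i % (2 * h) < 2 * h := Nat.mod_lt _ (by omega)
  have hj' : k % (2 * h) < 2 * h := Nat.mod_lt _ (by omega)
  have ht : i / (2 * h) < n := Nat.div_lt_of_lt_mul (by omega)
  have ht' : k / (2 * h) < n := Nat.div_lt_of_lt_mul (by omega)
  have ei := Nat.div_add_mod i (2 * h)
  have ek := Nat.div_add_mod k (2 * h)
  obtain ⟨sA, sE⟩ := A_spec ck _ hj
  obtain ⟨sA', sE'⟩ := A_spec ck _ hj'
  unfold ckB at ckb
  simp only [List.all_eq_true, List.mem_range] at ckb
  have hc := ckb _ hj _ hj'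
  unfold cs at hd
  generalize i % (2 * h) = j at *
  generalize k % (2 * h) = j' at *
  generalize i / (2 * h) = t at *
  generalize k / (2 * h) = t' at *
  have eiz : (i : ℤ) = 2 * h * t + j := by rw [← ei]; push_cast; ring
  have ekz : (k : ℤ) = 2 * h * t' + j' := by rw [← ek]; push_cast; ring
  have hd' : (2 * (h : ℤ) * n) ∣ (h : ℤ) * ((A j - 2) * t - (A j' - 2) * t')
      + (G j - j - (G j' - j')) + (E j - E j') * (h * n) := by
    have e : (h : ℤ) * ((A j - 2) * t - (A j' - 2) * t') + (G j - j - (G j' - j'))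
      + (E j - E j') * (h * n) =
      ((h * (A j * t) + G j + E j * (h * n)) - i) - ((h * (A j' * t') + G j' + E j' * (h * n)) - k) := by
      rw [eiz, ekz]; ring
    rw [e]
    have := hd
    push_cast at this
    exact this
  obtain ⟨g, hg, h2⟩ := key1 _ _ _ _ _ (by exact_mod_cast hh) hd'
  have n0 : (0 : ℤ) < n := by omega
  have h6' : (n : ℤ) % 6 = 1 ∨ (n : ℤ) % 6 = 5 := by omega
  have hlast : ∀ s a : ℕ, s < n → a = 2 * h * s + (2 * h - 1) → a + 1 < 2 * h * n → s + 1 < n := by
    intro s a h1 h2 h3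
    by_contra hx
    have hs : s + 1 = n := by omega
    have : 2 * h * n = 2 * h * s + 2 * h := by rw [← hs]; ring
    omega
  by_cases hjj : j = j'
  · subst hjj
    have hg0 : g = 0 := by
      have : (h : ℤ) * g = 0 := by rw [← hg]; ring
      rcases mul_eq_zero.1 this with h3 | h3
      · exfalso; omega
      · exact h3
    subst hg0
    have : (t : ℤ) = t' := L1 n t t' (A j - 2) n0 h6' (by unfold St; omega) (by omega) (by omega)
      (by omega) (by omega) (by
        have e : (A j - 2) * (t : ℤ) - (A j - 2) * t' =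
          (A j - 2) * t - (A j - 2) * t' + 0 + (E j - E j) * n := by ring
        rw [e]; exact h2)
    have : t = t' := by exact_mod_cast this
    subst this
    omega
  · exfalso
    have hb : Nat.beq j j' = false := by
      rw [Bool.eq_false_iff]; intro hx; exact hjj (Nat.eq_of_beq_eq_true hx)
    have hm : (G j - j - (G j' - j')) % (h : ℤ) = 0 := by rw [hg]; exact Int.mul_emod_right _ _
    have hq : (G j - j - (G j' - j')) / (h : ℤ) = g := by
      rw [hg]; exact Int.mul_ediv_cancel_left _ (by omega)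
    rw [hb, Bool.false_or, hq] at hc
    simp only [hm, decide_true, Bool.not_true, Bool.false_or, Bool.or_eq_true, Bool.and_eq_true,
      Nat.beq_eq] at hc
    unfold ckL at ckl
    simp only [Bool.and_eq_true, decide_eq_true_eq] at ckl
    obtain ⟨⟨⟨⟨l1, l2⟩, l3⟩, l4⟩, -⟩ := ckl
    rcases hc with hc | hc | hc
    · exact okP_spec n t t' _ _ g _ _ n0 h6' (by unfold St; omega) sE sE' hc (by omega) (by omega)
        (by omega) (by omega) h2
    · obtain ⟨c1, c2⟩ := hc
      subst c1 c2
      rw [l1, l2, l3] at h2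
      rw [l4] at hg
      have hg2 : g = -2 := by
        have : (h : ℤ) * g = h * (-2) := by rw [← hg]; push_cast [show 1 ≤ 2 * h by omega, show 2 ≤ 2 * h by omega]; ring
        exact mul_left_cancel₀ (by omega) this
      subst hg2
      have := hlast t i ht ei.symm hi
      refine L3' n (-t - t' - 2) (by omega) (by omega) ?_
      have e : (1 - 2 : ℤ) * t - (3 - 2) * t' + -2 + (E (2 * h - 2) - E (2 * h - 2)) * n = -t - t' - 2 := by ring
      rwa [e] at h2
    · obtain ⟨c1, c2⟩ := hc
      subst c1 c2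
      rw [l1, l2, l3] at h2
      rw [l4] at hg
      have hg2 : g = 2 := by
        have : (h : ℤ) * g = h * 2 := by rw [← hg]; push_cast [show 1 ≤ 2 * h by omega, show 2 ≤ 2 * h by omega]; ring
        exact mul_left_cancel₀ (by omega) this
      subst hg2
      have := hlast t' k ht' ek.symm hk
      refine L3 n (t + t' + 2) (by omega) (by omega) ?_
      have e : (3 - 2 : ℤ) * t - (1 - 2) * t' + 2 + (E (2 * h - 2) - E (2 * h - 2)) * n = t + t' + 2 := by ring
      rwa [e] at h2

end

end Pool.Agent.V7H59.DN
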