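import Pool.Agent.V7H59.DN.Miss
import Pool.Agent.V7H32.DN.OFSEQ

set_option autoImplicit false
set_option maxHeartbeats 1000000

namespace Pool.Agent.V7H59.DN

open Pool.Agent.Results.MP_845d9b_co.SevenModEight (DNeofieldOrder)
open Pool.Agent.Results.MP_162c7e_co.SevenModEight (small_dvd)

theorem L4 (n t u s : ℤ) (hn : 0 < n) (h6 : n % 6 = 1 ∨ n % 6 = 5)
    (hs : s = -4 ∨ s = -2 ∨ s = 2 ∨ s = 4)
    (t0 : 0 ≤ t) (t1 : t < n) (u0 : 0 ≤ u) (u1 : u < n) (h : 2 * n ∣ s * t - s * u) : t = u := by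
  rcases hs with rfl | rfl | rfl | rfl <;>
  · rcases small_dvd (2 * n) _ (by omega) h (by omega) (by omega) with
      h3 | h3 | h3 | h3 | h3 | h3 | h3 <;> omega

variable {h : ℕ} {A E G : ℕ → ℤ} (n : ℕ)

theorem Sl_spec (hh : 0 < h) (ck : ckA h A E = true) (j : ℕ) (hj : j < 2 * h) :
    Sl h A j = -4 ∨ Sl h A j = -2 ∨ Sl h A j = 0 ∨ Sl h A j = 2 ∨ Sl h A j = 4 := by
  unfold Sl
  have a1 := (A_spec ck j hj).1
  have a0 := (A_spec ck 0 (by omega)).1
  split_ifs with h1
  · have a2 := (A_spec ck (j + 1) h1).1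
    omega
  · omega

theorem step (hh : 0 < h) (i : ℕ) :
    cs h A E G n (i + 1) - cs h A E G n i =
      h * (Sl h A (i % (2 * h)) * ((i / (2 * h) : ℕ) : ℤ)) + Dl h A G (i % (2 * h)) +
        Fl h E (i % (2 * h)) * (h * n) := by
  have hj : i % (2 * h) < 2 * h := Nat.mod_lt _ (by omega)
  have ei := Nat.div_add_mod i (2 * h)
  unfold cs Sl Dl Fl
  by_cases h1 : i % (2 * h) + 1 < 2 * h
  · have e1 : (i + 1) % (2 * h) = i % (2 * h) + 1 := by
      rw [show i + 1 = 2 * h * (i / (2 * h)) + (i % (2 * h) + 1) by omega, Nat.mul_add_mod,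
        Nat.mod_eq_of_lt h1]
    have e2 : (i + 1) / (2 * h) = i / (2 * h) := by
      have := Nat.div_add_mod (i + 1) (2 * h)
      rw [e1] at this
      have h3 : 2 * h * ((i + 1) / (2 * h)) = 2 * h * (i / (2 * h)) := by omega
      exact Nat.eq_of_mul_eq_mul_left (by omega) h3
    rw [if_pos h1, if_pos h1, if_pos h1, e1, e2]
    ring
  · have e0 : i + 1 = 2 * h * (i / (2 * h) + 1) := by
      have : 2 * h * (i / (2 * h) + 1) = 2 * h * (i / (2 * h)) + 2 * h := by ring
      omega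
    have e1 : (i + 1) % (2 * h) = 0 := by
      rw [e0]; exact Nat.mul_mod_right _ _
    have e2 : (i + 1) / (2 * h) = i / (2 * h) + 1 := by
      have := Nat.div_add_mod (i + 1) (2 * h)
      rw [e1] at this
      have h3 : 2 * h * ((i + 1) / (2 * h)) = 2 * h * (i / (2 * h) + 1) := by omega
      exact Nat.eq_of_mul_eq_mul_left (by omega) h3
    rw [if_neg h1, if_neg h1, if_neg h1, e1, e2]
    push_cast
    ring

theorem D_inj (hh : 0 < h) (h6 : n % 6 = 1 ∨ n % 6 = 5) (ck : ckA h A E = true)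
    (ckd : ckD h A E G = true) (i k : ℕ)
    (hi : i + 2 < 2 * h * n) (hk : k + 2 < 2 * h * n)
    (hd : ((2 * h * n : ℕ) : ℤ) ∣ (cs h A E G n (i + 1) - cs h A E G n i) -
      (cs h A E G n (k + 1) - cs h A E G n k)) : i = k := by
  rw [step n hh i, step n hh k] at hd
  have hj : i % (2 * h) < 2 * h := Nat.mod_lt _ (by omega)
  have hj' : k % (2 * h) < 2 * h := Nat.mod_lt _ (by omega)
  have ht : i / (2 * h) < n := Nat.div_lt_of_lt_mul (by omega)
  have ht' : k / (2 * h) < n := Nat.div_lt_of_lt_mul (by omega)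
  have ei := Nat.div_add_mod i (2 * h)
  have ek := Nat.div_add_mod k (2 * h)
  have s1 := Sl_spec hh ck _ hj
  have s2 := Sl_spec hh ck _ hj'
  unfold ckD at ckd
  simp only [List.all_eq_true, List.mem_range, Bool.and_eq_true] at ckd
  have hc := (ckd _ hj).2 _ hj'
  have hz := (ckd _ hj).1
  generalize i % (2 * h) = j at *
  generalize k % (2 * h) = j' at *
  generalize i / (2 * h) = t at *
  generalize k / (2 * h) = t' at *
  have n0 : (0 : ℤ) < n := by omega
  have h6' : (n : ℤ) % 6 = 1 ∨ (n : ℤ) % 6 = 5 := by omega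
  push_cast at hd
  by_cases hjj : j = j'
  · subst hjj
    have hz' : Sl h A j ≠ 0 := by
      intro hx
      rw [hx] at hz
      simp at hz
    have h2 : 2 * (n : ℤ) ∣ Sl h A j * t - Sl h A j * t' := by
      obtain ⟨q, hq⟩ := hd
      refine ⟨q, ?_⟩
      have : (h : ℤ) * (Sl h A j * t - Sl h A j * t') = h * (2 * n * q) := by
        linear_combination hq
      exact mul_left_cancel₀ (by omega) this
    have : (t : ℤ) = t' := L4 n t t' (Sl h A j) n0 h6' (by omega) (by omega) (by omega)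
      (by omega) (by omega) h2
    have : t = t' := by exact_mod_cast this
    subst this
    omega
  · exfalso
    have hb : Nat.beq j j' = false := by
      rw [Bool.eq_false_iff]; intro hx; exact hjj (Nat.eq_of_beq_eq_true hx)
    rw [hb, Bool.false_or] at hc
    have hm : (Dl h A G j + Fl h E j * h - (Dl h A G j' + Fl h E j' * h)) % (2 * h) = 0 := by
      obtain ⟨q, hq⟩ := hd
      obtain ⟨a, ha⟩ : ∃ a, Sl h A j = 2 * a := ⟨Sl h A j / 2, by omega⟩
      obtain ⟨b, hb'⟩ : ∃ b, Sl h A j' = 2 * b := ⟨Sl h A j' / 2, by omega⟩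
      obtain ⟨r, hr⟩ : ∃ r : ℤ, (n : ℤ) = 2 * r + 1 := ⟨(n : ℤ) / 2, by omega⟩
      rw [ha, hb', hr] at hq
      have : Dl h A G j + Fl h E j * h - (Dl h A G j' + Fl h E j' * h) =
        (2 * h) * ((2 * r + 1) * q - a * t + b * t' - (Fl h E j - Fl h E j') * r) := by
        linear_combination hq
      rw [this]
      exact Int.mul_emod_right _ _
    rw [hm] at hc
    simp at hc

/-- the lift: base data modulo `2 h` passing the finite check give D-neofields of all orders
`2 h n + 1`, `n` coprime to `6` -/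
theorem lift (hh : 0 < h) (h6 : n % 6 = 1 ∨ n % 6 = 5) (ck : ckAll h A E G = true) :
    DNeofieldOrder (2 * h * n + 1) := by
  unfold ckAll at ck
  simp only [Bool.and_eq_true] at ck
  obtain ⟨ca, cc, cb, cl, cd⟩ := ck
  have hm : 1 ≤ 2 * h * n := by
    have : 0 < 2 * h * n := Nat.mul_pos (by omega) (by omega)
    omega
  refine Pool.Agent.V7H32.DN.t_OFSEQ (2 * h * n) hm (cs h A E G n)
    (cs h A E G n (2 * h * n - 1))
    (G (2 * h - 2) - ((2 * h - 2 : ℕ) : ℤ) + E (2 * h - 2) * (h * n) - h) ?_ ?_ ?_ ?_ ?_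
  · intro i k hi hk hd
    exact C_inj n hh h6 ca cc i k (by omega) (by omega) hd
  · intro i k hi hk hd
    exact B_inj n hh h6 ca cb cl i k hi hk hd
  · intro i k hi hk hd
    exact D_inj n hh h6 ca cd i k hi hk hd
  · intro i hi hd
    have := C_inj n hh h6 ca cc i (2 * h * n - 1) (by omega) (by omega) hd
    omega
  · intro i hi hd
    exact B_miss n hh cl i hi hd

end Pool.Agent.V7H59.DN
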