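import Pool.Agent.V7H59.DN.Lift

set_option autoImplicit false
set_option maxHeartbeats 1000000

namespace Pool.Agent.V7H59.DN

theorem B_miss {h : ℕ} {A E G : ℕ → ℤ} (n : ℕ) (hh : 0 < h)
    (ckl : ckL h A E G = true) (i : ℕ) (hi : i + 1 < 2 * h * n) :
    ¬ ((2 * h * n : ℕ) : ℤ) ∣ (cs h A E G n i - i) -
      (G (2 * h - 2) - ((2 * h - 2 : ℕ) : ℤ) + E (2 * h - 2) * (h * n) - h) := by
  intro hd
  have hj : i % (2 * h) < 2 * h := Nat.mod_lt _ (by omega)
  have ht : i / (2 * h) < n := Nat.div_lt_of_lt_mul (by omega)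
  have ei := Nat.div_add_mod i (2 * h)
  unfold ckL at ckl
  simp only [Bool.and_eq_true, decide_eq_true_eq, List.all_eq_true, List.mem_range] at ckl
  obtain ⟨⟨⟨⟨l1, l2⟩, l3⟩, l4⟩, l5⟩ := ckl
  unfold cs at hd
  generalize i % (2 * h) = j at *
  generalize i / (2 * h) = t at *
  have eiz : (i : ℤ) = 2 * h * t + j := by rw [← ei]; push_cast; ring
  have hd' : (2 * (h : ℤ) * n) ∣ (h : ℤ) * ((A j - 2) * t + 1)
      + (G j - j - (G (2 * h - 2) - ((2 * h - 2 : ℕ) : ℤ))) + (E j - E (2 * h - 2)) * (h * n) := by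
    have e : (h : ℤ) * ((A j - 2) * t + 1)
      + (G j - j - (G (2 * h - 2) - ((2 * h - 2 : ℕ) : ℤ))) + (E j - E (2 * h - 2)) * (h * n) =
      ((h * (A j * t) + G j + E j * (h * n)) - i) -
      (G (2 * h - 2) - ((2 * h - 2 : ℕ) : ℤ) + E (2 * h - 2) * (h * n) - h) := by
      rw [eiz]; ring
    rw [e]
    have e2 : ((2 * h * n : ℕ) : ℤ) = 2 * (h : ℤ) * n := by push_cast; ring
    rw [← e2]
    exact hd
  obtain ⟨g, hg, h2⟩ := key1 _ _ _ _ _ (by exact_mod_cast hh) hd'
  have n0 : (0 : ℤ) < n := by omega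
  by_cases h1 : j < 2 * h - 2
  · have := l5 j h1
    have hm : (G j - j - (G (2 * h - 2) - ((2 * h - 2 : ℕ) : ℤ))) % (h : ℤ) = 0 := by
      rw [hg]; exact Int.mul_emod_right _ _
    rw [hm] at this
    simp at this
  · by_cases h3 : j = 2 * h - 2
    · subst h3
      have hg0 : g = 0 := by
        have : (h : ℤ) * g = 0 := by rw [← hg]; ring
        rcases mul_eq_zero.1 this with h4 | h4
        · exfalso; omega
        · exact h4
      subst hg0
      rw [l2] at h2
      refine L3 n (t + 1) (by omega) (by omega) ?_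
      have e : (3 - 2 : ℤ) * t + 1 + 0 + (E (2 * h - 2) - E (2 * h - 2)) * n = t + 1 := by ring
      rwa [e] at h2
    · have h4 : j = 2 * h - 1 := by omega
      subst h4
      rw [l1, l3] at h2
      rw [l4] at hg
      have hg2 : g = -2 := by
        have : (h : ℤ) * g = h * (-2) := by
          rw [← hg]
          push_cast [show 1 ≤ 2 * h by omega, show 2 ≤ 2 * h by omega]
          ring
        exact mul_left_cancel₀ (by omega) this
      subst hg2
      refine L3' n (-t - 1) (by omega) (by omega) ?_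
      have e : (1 - 2 : ℤ) * t + 1 + -2 + (E (2 * h - 2) - E (2 * h - 2)) * n = -t - 1 := by ring
      rwa [e] at h2

end Pool.Agent.V7H59.DN
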