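import Pool.Agent.Results.MP_845d9b_co.SevenModEight

set_option autoImplicit false

namespace Pool.Agent.V7H59.DN

open Pool.Agent.Results.MP_845d9b_co.SevenModEight (DNeofieldOrder)

/-- A sequence `c 0, ..., c (m - 2)` modulo `m` with `c i`, `c i - i`, `c (i+1) - c i` injective gives
a D-neofield of order `m + 1`; `u`, `v` are the values missed by `c i` and `c i - i`. -/
def S_OFSEQ : Prop := ∀ (m : ℕ), 1 ≤ m → ∀ (c : ℕ → ℤ) (u v : ℤ),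
  (∀ i k : ℕ, i + 1 < m → k + 1 < m → (m : ℤ) ∣ c i - c k → i = k) →
  (∀ i k : ℕ, i + 1 < m → k + 1 < m → (m : ℤ) ∣ (c i - i) - (c k - k) → i = k) →
  (∀ i k : ℕ, i + 2 < m → k + 2 < m → (m : ℤ) ∣ (c (i + 1) - c i) - (c (k + 1) - c k) → i = k) →
  (∀ i : ℕ, i + 1 < m → ¬ (m : ℤ) ∣ c i - u) →
  (∀ i : ℕ, i + 1 < m → ¬ (m : ℤ) ∣ (c i - i) - v) →
  DNeofieldOrder (m + 1)

end Pool.Agent.V7H59.DN
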